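import Pool.Agent.W207.SW.SpecS

/-!
Phragmen-Lindeloef (MP_8958e8_nt, part SW-PL).
-/

set_option autoImplicit false

open Complex Filter Topology Set MeasureTheory

namespace Pool.Agent.W397.SW

open W207.SW

theorem norm_ge_one {z : ℂ} (hz : 0 ≤ z.im) : 1 ≤ ‖z + I‖ := by
  have h1 := Complex.abs_im_le_norm (z + I)
  have h2 : (z + I).im = z.im + 1 := by simp
  rw [h2] at h1
  have h3 : z.im + 1 ≤ |z.im + 1| := le_abs_self _
  linarith

theorem one_add_le (x : ℝ) : 1 + |x| ≤ 2 * ‖(x : ℂ) + I‖ := by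
  have h1 := Complex.abs_im_le_norm ((x : ℂ) + I)
  have h2 := Complex.abs_re_le_norm ((x : ℂ) + I)
  have h3 : ((x : ℂ) + I).im = 1 := by simp
  have h4 : ((x : ℂ) + I).re = x := by simp
  rw [h3, abs_one] at h1
  rw [h4] at h2
  linarith

theorem pl : S_GA → S_PL := by
  intro hGA Λ κ R M f hΛ hκ hR hM hf hgr hsm z hz
  obtain ⟨hd, hc, hre, him, C, hC, hbd⟩ := hGA Λ hΛ
  obtain ⟨F, hF⟩ : ∃ F : ℂ → ℂ, F = fun w =>
      f (I * w) * Complex.exp (2 * Real.pi * R * I * (I * w)) *
        Complex.exp ((κ * R : ℝ) * GG Λ (I * w)) * (I * w + I)⁻¹ := ⟨_, rfl⟩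
  have hnorm : ∀ w, ‖F w‖ = ‖f (I * w)‖ * Real.exp (-(2 * Real.pi * R * w.re)) *
      Real.exp (κ * R * (GG Λ (I * w)).re) * ‖I * w + I‖⁻¹ := by
    intro w
    rw [hF]
    simp only
    rw [norm_mul, norm_mul, norm_mul, norm_inv, Complex.norm_exp, Complex.norm_exp]
    congr 3
    · congr 1
      have : (2 * (Real.pi : ℂ) * R * I * (I * w)) = ((-(2 * Real.pi * R) : ℝ) : ℂ) * w := by
        push_cast
        linear_combination (2 * (Real.pi : ℂ) * R * w) * Complex.I_sq
      rw [this, Complex.re_ofReal_mul]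
      ring
    · rw [Complex.re_ofReal_mul]
  have hwim : ∀ w : ℂ, (I * w).im = w.re := by intro w; simp
  have hcov : ∀ w : ℂ, 0 ≤ w.re → 1 ≤ ‖I * w + I‖ := fun w hw =>
    norm_ge_one (by rw [hwim]; exact hw)
  -- general bound
  have hgen : ∀ w : ℂ, 0 ≤ w.re → ‖F w‖ ≤ M * (1 + ‖w‖) *
      Real.exp (κ * R * (GG Λ (I * w)).re) * ‖I * w + I‖⁻¹ := by
    intro w hw
    rw [hnorm]
    have h1 := hgr (I * w)
    rw [hwim, abs_of_nonneg hw, norm_mul, Complex.norm_I, one_mul] at h1
    have h2 : ‖f (I * w)‖ * Real.exp (-(2 * Real.pi * R * w.re)) ≤ M * (1 + ‖w‖) := by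
      calc ‖f (I * w)‖ * Real.exp (-(2 * Real.pi * R * w.re))
          ≤ (M * (1 + ‖w‖) * Real.exp (2 * Real.pi * R * w.re)) *
            Real.exp (-(2 * Real.pi * R * w.re)) :=
            mul_le_mul_of_nonneg_right h1 (Real.exp_pos _).le
        _ = M * (1 + ‖w‖) := by
            rw [mul_assoc, ← Real.exp_add, add_neg_cancel, Real.exp_zero, mul_one]
    have h3 : 0 ≤ Real.exp (κ * R * (GG Λ (I * w)).re) := (Real.exp_pos _).le
    have h4 : 0 ≤ ‖I * w + I‖⁻¹ := by positivity
    exact mul_le_mul_of_nonneg_right (mul_le_mul_of_nonneg_right h2 h3) h4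
  have hmaps : MapsTo (fun w : ℂ => I * w) {w : ℂ | 0 < w.re} {z : ℂ | 0 < z.im} := by
    intro w hw
    show 0 < (I * w).im
    rw [hwim]; exact hw
  have hmaps' : MapsTo (fun w : ℂ => I * w) {w : ℂ | 0 ≤ w.re} {z : ℂ | 0 ≤ z.im} := by
    intro w hw
    show 0 ≤ (I * w).im
    rw [hwim]; exact hw
  have hne : ∀ w : ℂ, 0 ≤ w.re → I * w + I ≠ 0 := by
    intro w hw h0
    have := hcov w hw
    rw [h0, norm_zero] at this
    linarith
  have hD : DiffContOnCl ℂ F {w : ℂ | 0 < w.re} := by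
    have hlin : Differentiable ℂ (fun w : ℂ => I * w) := differentiable_id.const_mul I
    have hG1 : DifferentiableOn ℂ (fun w : ℂ => GG Λ (I * w)) {w : ℂ | 0 < w.re} :=
      hd.comp hlin.differentiableOn hmaps
    have hG2 : ContinuousOn (fun w : ℂ => GG Λ (I * w)) {w : ℂ | 0 ≤ w.re} :=
      hc.comp hlin.continuous.continuousOn hmaps'
    have hf1 : Differentiable ℂ (fun w : ℂ => f (I * w)) := hf.comp hlin
    have he1 : Differentiable ℂ (fun w : ℂ =>
        Complex.exp (2 * Real.pi * R * I * (I * w))) := by fun_prop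
    have hi1 : Differentiable ℂ (fun w : ℂ => I * w + I) := by fun_prop
    constructor
    · rw [hF]
      refine ((hf1.differentiableOn.mul he1.differentiableOn).mul
        (hG1.const_mul _).cexp).mul ?_
      exact hi1.differentiableOn.inv fun w hw => hne w (le_of_lt hw)
    · rw [Complex.closure_setOfPred_lt_re, hF]
      refine ((hf1.continuous.continuousOn.mul he1.continuous.continuousOn).mul
        (hG2.const_mul _).cexp).mul ?_
      exact hi1.continuous.continuousOn.inv₀ fun w hw => hne w hw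
  have hmain : ∀ w : ℂ, 0 ≤ w.re → ‖F w‖ ≤ 2 * M := by
    intro w hw
    refine PhragmenLindelof.right_half_plane_of_bounded_on_real hD ?_ ?_ ?_ hw
    · -- growth
      refine ⟨3 / 2, by norm_num, 1 + κ * R * (C * (2 : ℝ) ^ (3 / 2 : ℝ)), ?_⟩
      refine Asymptotics.IsBigO.of_bound (2 * M) ?_
      rw [eventually_inf_principal]
      have hcob : ∀ᶠ w : ℂ in Bornology.cobounded ℂ, 1 ≤ ‖w‖ :=
        tendsto_norm_cobounded_atTop.eventually_ge_atTop 1
      filter_upwards [hcob] with w hw1 hw2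
      have hw2' : 0 ≤ w.re := le_of_lt hw2
      rw [Real.norm_of_nonneg (Real.exp_pos _).le]
      refine (hgen w hw2').trans ?_
      have h1 : ‖I * w + I‖⁻¹ ≤ 1 := inv_le_one_of_one_le₀ (hcov w hw2')
      have h2 : 1 + ‖w‖ ≤ 2 * Real.exp (‖w‖ ^ (3 / 2 : ℝ)) := by
        have h3 : ‖w‖ ≤ ‖w‖ ^ (3 / 2 : ℝ) := by
          calc ‖w‖ = ‖w‖ ^ (1 : ℝ) := (Real.rpow_one _).symm
            _ ≤ ‖w‖ ^ (3 / 2 : ℝ) := Real.rpow_le_rpow_of_exponent_le hw1 (by norm_num)
        have h4 := Real.add_one_le_exp (‖w‖ ^ (3 / 2 : ℝ))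
        have h5 := Real.exp_pos (‖w‖ ^ (3 / 2 : ℝ))
        linarith
      have h6 : κ * R * (GG Λ (I * w)).re ≤
          κ * R * (C * (2 : ℝ) ^ (3 / 2 : ℝ)) * ‖w‖ ^ (3 / 2 : ℝ) := by
        have h7 : (GG Λ (I * w)).re ≤ C * (2 : ℝ) ^ (3 / 2 : ℝ) * ‖w‖ ^ (3 / 2 : ℝ) := by
          calc (GG Λ (I * w)).re ≤ ‖GG Λ (I * w)‖ := Complex.re_le_norm _
            _ ≤ C * (1 + ‖I * w‖) ^ (3 / 2 : ℝ) := hbd _
            _ ≤ C * (2 * ‖w‖) ^ (3 / 2 : ℝ) := by
                refine mul_le_mul_of_nonneg_left ?_ hC.le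
                refine Real.rpow_le_rpow (by positivity) ?_ (by norm_num)
                rw [norm_mul, Complex.norm_I, one_mul]
                linarith
            _ = C * (2 : ℝ) ^ (3 / 2 : ℝ) * ‖w‖ ^ (3 / 2 : ℝ) := by
                rw [Real.mul_rpow (by norm_num) (norm_nonneg _)]
                ring
        calc κ * R * (GG Λ (I * w)).re
            ≤ κ * R * (C * (2 : ℝ) ^ (3 / 2 : ℝ) * ‖w‖ ^ (3 / 2 : ℝ)) :=
              mul_le_mul_of_nonneg_left h7 (by positivity)
          _ = _ := by ring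
      calc M * (1 + ‖w‖) * Real.exp (κ * R * (GG Λ (I * w)).re) * ‖I * w + I‖⁻¹
          ≤ M * (1 + ‖w‖) * Real.exp (κ * R * (GG Λ (I * w)).re) * 1 :=
            mul_le_mul_of_nonneg_left h1 (by positivity)
        _ = M * (1 + ‖w‖) * Real.exp (κ * R * (GG Λ (I * w)).re) := mul_one _
        _ ≤ M * (2 * Real.exp (‖w‖ ^ (3 / 2 : ℝ))) *
            Real.exp (κ * R * (C * (2 : ℝ) ^ (3 / 2 : ℝ)) * ‖w‖ ^ (3 / 2 : ℝ)) := by
            refine mul_le_mul (mul_le_mul_of_nonneg_left h2 hM)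
              (Real.exp_le_exp.2 h6) (Real.exp_pos _).le (by positivity)
        _ = 2 * M * Real.exp ((1 + κ * R * (C * (2 : ℝ) ^ (3 / 2 : ℝ))) *
            ‖w‖ ^ (3 / 2 : ℝ)) := by
            rw [add_mul, one_mul, Real.exp_add]
            ring
    · -- positive real axis
      refine ⟨M * Real.exp (κ * R * Λ), ?_⟩
      rw [eventually_map]
      filter_upwards [eventually_gt_atTop 0] with x hx
      refine (hgen x (by simpa using hx.le)).trans ?_
      have h1 := him x hx
      have h2 : I * (x : ℂ) = x * I := mul_comm _ _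
      rw [h2]
      have h3 : ‖(x : ℂ) * I + I‖ = 1 + x := by
        have : (x : ℂ) * I + I = ((1 + x : ℝ) : ℂ) * I := by push_cast; ring
        rw [this, norm_mul, Complex.norm_I, mul_one, Complex.norm_real,
          Real.norm_of_nonneg (by linarith)]
      have h4 : ‖(x : ℂ)‖ = x := by rw [Complex.norm_real, Real.norm_of_nonneg hx.le]
      rw [h3, h4]
      have h5 : Real.exp (κ * R * (GG Λ (x * I)).re) ≤ Real.exp (κ * R * Λ) :=
        Real.exp_le_exp.2 (mul_le_mul_of_nonneg_left h1 (by positivity))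
      calc M * (1 + x) * Real.exp (κ * R * (GG Λ (x * I)).re) * (1 + x)⁻¹
          = M * Real.exp (κ * R * (GG Λ (x * I)).re) := by
            field_simp
        _ ≤ M * Real.exp (κ * R * Λ) := mul_le_mul_of_nonneg_left h5 hM
    · -- imaginary axis
      intro x
      have h1 : I * ((x : ℂ) * I) = ((-x : ℝ) : ℂ) := by
        push_cast
        linear_combination (x : ℂ) * Complex.I_sq
      rw [hnorm, h1, hre (-x), abs_neg]
      have h2 : ((x : ℂ) * I).re = 0 := by simp
      rw [h2, mul_zero, neg_zero, Real.exp_zero, mul_one]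
      have h0 : 1 ≤ ‖((-x : ℝ) : ℂ) + I‖ := norm_ge_one (by simp)
      have h00 : 0 < ‖((-x : ℝ) : ℂ) + I‖ := by linarith
      rw [← div_eq_mul_inv, div_le_iff₀ h00]
      by_cases hx : |x| < Λ
      · have h3 := hsm (-x) (by rw [abs_neg]; exact hx)
        rw [abs_neg] at h3
        rw [max_eq_left (by linarith)]
        calc ‖f ((-x : ℝ) : ℂ)‖ * Real.exp (κ * R * (Λ - |x|))
            ≤ M * Real.exp (-(κ * (Λ - |x|) * R)) * Real.exp (κ * R * (Λ - |x|)) :=
              mul_le_mul_of_nonneg_right h3 (Real.exp_pos _).le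
          _ = M := by
              rw [mul_assoc, ← Real.exp_add]
              have : -(κ * (Λ - |x|) * R) + κ * R * (Λ - |x|) = 0 := by ring
              rw [this, Real.exp_zero, mul_one]
          _ ≤ 2 * M * ‖((-x : ℝ) : ℂ) + I‖ := by nlinarith
      · rw [max_eq_right (by linarith), mul_zero, Real.exp_zero, mul_one]
        have h3 := hgr ((-x : ℝ) : ℂ)
        rw [Complex.ofReal_im, abs_zero, mul_zero, Real.exp_zero, mul_one,
          Complex.norm_real, Real.norm_eq_abs] at h3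
        refine h3.trans ?_
        have h4 := one_add_le (-x)
        nlinarith
  -- conclusion
  have hw := hmain (-I * z) (by simpa using hz)
  have h1 : I * (-I * z) = z := by
    linear_combination (-z) * Complex.I_sq
  have h2 : (-I * z).re = z.im := by simp
  rw [hnorm, h1, h2] at hw
  have h0 : 1 ≤ ‖z + I‖ := norm_ge_one hz
  have h00 : 0 < ‖z + I‖ := by linarith
  rw [← div_eq_mul_inv, div_le_iff₀ h00] at hw
  have h3 : Real.exp (2 * Real.pi * R * z.im - κ * R * (GG Λ z).re) =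
      Real.exp (2 * Real.pi * R * z.im) * Real.exp (-(κ * R * (GG Λ z).re)) := by
    rw [← Real.exp_add]; ring_nf
  have h4 : ‖f z‖ = ‖f z‖ * Real.exp (-(2 * Real.pi * R * z.im)) *
      Real.exp (κ * R * (GG Λ z).re) *
      (Real.exp (2 * Real.pi * R * z.im) * Real.exp (-(κ * R * (GG Λ z).re))) := by
    have e1 : Real.exp (-(2 * Real.pi * R * z.im)) * Real.exp (2 * Real.pi * R * z.im) = 1 := by
      rw [← Real.exp_add, neg_add_cancel, Real.exp_zero]
    have e2 : Real.exp (κ * R * (GG Λ z).re) * Real.exp (-(κ * R * (GG Λ z).re)) = 1 := by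
      rw [← Real.exp_add, add_neg_cancel, Real.exp_zero]
    calc ‖f z‖ = ‖f z‖ * (Real.exp (-(2 * Real.pi * R * z.im)) *
          Real.exp (2 * Real.pi * R * z.im)) *
          (Real.exp (κ * R * (GG Λ z).re) * Real.exp (-(κ * R * (GG Λ z).re))) := by
          rw [e1, e2, mul_one, mul_one]
      _ = _ := by ring
  rw [h4, h3]
  exact mul_le_mul_of_nonneg_right hw (by positivity)

end Pool.Agent.W397.SW
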